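import Pool.Agent.Work.MP_bc4532_gt.Final
import Pool.Agent.Work.MP_bc4532_gt.Manifold

/-!
# Vietoris–Rips complexes of dense subsets need not have the homotopy type of the manifold

There are a closed connected smooth Riemannian manifold `M` (a two-dimensional torus) and a scale
`r > 0` such that for every `ε > 0` some finite `ε`-dense subset `X` of `M` has
`VR_<(X; r)` not homotopy equivalent to `VR_<(M; r)`.
-/

open Bundle Manifold
open scoped Manifold ContDiff
open Pool.Agent.Work.MP_bc4532_gt

namespace Pool.Agent.Results.MP_bc4532_gt.NeckedTorus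

theorem result :
    ∃ (M : ClosedRiemannianManifold) (r : ℝ), Module.finrank ℝ M.E = 2 ∧ 0 < r ∧
      ∀ ε : ℝ, 0 < ε → ∃ X : Set M.Pt, X.Finite ∧ (∀ y : M.Pt, ∃ x ∈ X, dist y x < ε) ∧
        ¬ Nonempty (ContinuousMap.HomotopyEquiv (Realization (VR X r))
          (Realization (VR M.Pt r))) := by
  obtain ⟨P, hwall, hneck⟩ := exists_profile
  refine ⟨{ E := TE, H := _, I := TI, Pt := WTorus P }, 2 * Real.pi / 3, ?_, by positivity, ?_⟩
  · simp
  intro ε hε
  obtain ⟨X, -, hX, hcov⟩ :=
    finite_cover_balls_of_compact (isCompact_univ : IsCompact (Set.univ : Set (WTorus P))) hε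
  refine ⟨X, hX, ?_, ?_⟩
  · intro y
    have hy := hcov (Set.mem_univ y)
    simp only [Set.mem_iUnion, Metric.mem_ball, exists_prop] at hy
    exact hy
  · have : Finite X := hX.to_subtype
    exact WTorus.VR_not_homotopyEquiv hwall hneck _

end Pool.Agent.Results.MP_bc4532_gt.NeckedTorus
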